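import Pool.Agent.K4H92.CA.Data

set_option autoImplicit false

namespace Pool.Agent.K4H92.CA

/-- the word of length `7` at the place `i`, as a number -/
def st (x : ℤ → Bool) (i : ℤ) : ℕ :=
  64 * (x i).toNat + 32 * (x (i + 1)).toNat + 16 * (x (i + 2)).toNat + 8 * (x (i + 3)).toNat +
    4 * (x (i + 4)).toNat + 2 * (x (i + 5)).toNat + (x (i + 6)).toNat

/-- the automaton -/
def G (x : ℤ → Bool) (i : ℤ) : Bool := rule.testBit (2 * st x i + (x (i + 7)).toNat)

theorem st_lt (x : ℤ → Bool) (i : ℤ) : st x i < 128 := by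
  have h : ∀ b : Bool, b.toNat ≤ 1 := by decide
  have h0 := h (x i)
  have h1 := h (x (i + 1))
  have h2 := h (x (i + 2))
  have h3 := h (x (i + 3))
  have h4 := h (x (i + 4))
  have h5 := h (x (i + 5))
  have h6 := h (x (i + 6))
  unfold st
  omega

theorem st_succ (x : ℤ → Bool) (i : ℤ) : st x (i + 1) = (2 * st x i + (x (i + 7)).toNat) % 128 := by
  have h : ∀ b : Bool, b.toNat ≤ 1 := by decide
  have h0 := h (x i)
  have h1 := h (x (i + 1))
  have h2 := h (x (i + 2))
  have h3 := h (x (i + 3))
  have h4 := h (x (i + 4))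
  have h5 := h (x (i + 5))
  have h6 := h (x (i + 6))
  have h7 := h (x (i + 7))
  have e1 : i + 1 + 1 = i + 2 := by ring
  have e2 : i + 1 + 2 = i + 3 := by ring
  have e3 : i + 1 + 3 = i + 4 := by ring
  have e4 : i + 1 + 4 = i + 5 := by ring
  have e5 : i + 1 + 5 = i + 6 := by ring
  have e6 : i + 1 + 6 = i + 7 := by ring
  unfold st
  rw [e1, e2, e3, e4, e5, e6]
  omega

/-- related words of length `7` -/
def Rel (a b : ℕ) : Prop := rel.testBit (128 * a + b) = true

theorem rel_ne {a b : ℕ} (ha : a < 128) (hb : b < 128) (h : Rel a b) : a ≠ b := by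
  have := chk_all a ha b hb
  unfold Rel at h
  simp only [chk, h, Bool.not_true, Bool.false_or, Bool.and_eq_true, bne_iff_ne] at this
  exact this.1.1.1.1

theorem rel_step {a b : ℕ} (ha : a < 128) (hb : b < 128) (h : Rel a b) (c d : Bool)
    (e : rule.testBit (2 * a + c.toNat) = rule.testBit (2 * b + d.toNat)) :
    Rel ((2 * a + c.toNat) % 128) ((2 * b + d.toNat) % 128) := by
  have := chk_all a ha b hb
  unfold Rel at h
  simp only [chk, h, Bool.not_true, Bool.false_or, Bool.and_eq_true, Bool.or_eq_true] at this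
  obtain ⟨⟨⟨⟨_, h1⟩, h2⟩, h3⟩, h4⟩ := this
  unfold Rel
  cases c <;> cases d <;> simp only [Bool.toNat_false, Bool.toNat_true, add_zero] at e ⊢
  · rcases h1 with h1 | h1
    · simp [e] at h1
    · exact h1
  · rcases h2 with h1 | h1
    · simp [e] at h1
    · exact h1
  · rcases h3 with h1 | h1
    · simp [e] at h1
    · exact h1
  · rcases h4 with h1 | h1
    · simp [e] at h1
    · exact h1

theorem rel_start {a : ℕ} (ha : a < 128) (c d : Bool) (hcd : c ≠ d)
    (e : rule.testBit (2 * a + c.toNat) = rule.testBit (2 * a + d.toNat)) :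
    Rel ((2 * a + c.toNat) % 128) ((2 * a + d.toNat) % 128) := by
  have := chk0_all a ha
  simp only [chk0, Bool.and_eq_true, Bool.or_eq_true] at this
  unfold Rel
  cases c <;> cases d <;> simp only [Bool.toNat_false, Bool.toNat_true, add_zero, ne_eq, not_true_eq_false] at e hcd ⊢
  · rcases this with h1 | h1
    · simp [e] at h1
    · exact h1.1
  · rcases this with h1 | h1
    · simp [e] at h1
    · exact h1.2

/-- Two configurations with finitely many ones and the same image are equal. -/
theorem pre_injective (n : ℕ) (x y : ℤ → Bool) (hx0 : ∀ i : ℤ, i < 0 → x i = false)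
    (hy0 : ∀ i : ℤ, i < 0 → y i = false) (hx : ∀ i : ℤ, n ≤ i → x i = false)
    (hy : ∀ i : ℤ, n ≤ i → y i = false) (h : ∀ i : ℤ, -7 ≤ i → i < n → G x i = G y i) : x = y := by
  have key : ∀ k : ℕ, k ≤ n + 7 → (∀ j : ℤ, j < k → x j = y j) ∨ Rel (st x (k - 7)) (st y (k - 7)) := by
    intro k
    induction k with
    | zero =>
      intro _
      left
      intro j hj
      have hj' : j < 0 := by simpa using hj
      rw [hx0 j hj', hy0 j hj']
    | succ k ih =>
      intro hk
      have hG := h (k - 7) (by omega) (by omega)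
      unfold G at hG
      have e7 : ((k : ℤ) - 7 + 7) = k := by ring
      rw [e7] at hG
      have es : ∀ z : ℤ → Bool, st z (((k + 1 : ℕ) : ℤ) - 7) = (2 * st z ((k : ℤ) - 7) + (z k).toNat) % 128 := by
        intro z
        have := st_succ z ((k : ℤ) - 7)
        rw [e7] at this
        rw [← this]
        congr 1
        push_cast
        ring
      rcases ih (by omega) with ih | ih
      · by_cases hxy : x k = y k
        · left
          intro j hj
          rcases lt_or_eq_of_le (Int.lt_add_one_iff.mp (by exact_mod_cast hj : j < (k : ℤ) + 1)) with hj | hj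
          · exact ih j hj
          · rw [hj]
            exact hxy
        · right
          have hs : st x ((k : ℤ) - 7) = st y ((k : ℤ) - 7) := by
            unfold st
            rw [ih _ (by omega), ih _ (by omega), ih _ (by omega), ih _ (by omega), ih _ (by omega),
              ih _ (by omega), ih _ (by omega)]
          rw [es x, es y, hs]
          rw [hs] at hG
          exact rel_start (st_lt _ _) _ _ hxy hG
      · right
        rw [es x, es y]
        exact rel_step (st_lt _ _) (st_lt _ _) ih _ _ hG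
  have hend : ∀ z : ℤ → Bool, (∀ i : ℤ, n ≤ i → z i = false) → st z (((n + 7 : ℕ) : ℤ) - 7) = 0 := by
    intro z hz
    have e : (((n + 7 : ℕ) : ℤ) - 7) = n := by
      push_cast
      ring
    rw [e]
    unfold st
    rw [hz _ (by omega), hz _ (by omega), hz _ (by omega), hz _ (by omega), hz _ (by omega),
      hz _ (by omega), hz _ (by omega)]
    rfl
  rcases key (n + 7) le_rfl with hl | hr
  · funext j
    by_cases hj : j < n
    · exact hl j (by push_cast; omega)
    · rw [hx j (by omega), hy j (by omega)]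
  · rw [hend x hx, hend y hy] at hr
    exact absurd rfl (rel_ne (by norm_num) (by norm_num) hr)

theorem G_shift (x : ℤ → Bool) (a i : ℤ) : G (fun j => x (j + a)) i = G x (i + a) := by
  unfold G st
  have e : ∀ b : ℤ, i + b + a = i + a + b := by
    intro b
    ring
  simp only [e]

/-- the words in the image -/
def Img (n : ℕ) : Set (Fin n → Bool) := {g | ∃ x : ℤ → Bool, ∀ i : Fin n, G x (i : ℕ) = g i}

theorem card_lower (n : ℕ) : 2 ^ n ≤ Nat.card (Img (n + 7)) := by
  classical
  have hc : Nat.card (Fin n → Bool) = 2 ^ n := by simp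
  rw [← hc]
  let ext : (Fin n → Bool) → ℤ → Bool := fun u j =>
    if h : 0 ≤ j ∧ j < n then u ⟨j.toNat, by omega⟩ else false
  let φ : (Fin n → Bool) → Img (n + 7) := fun u =>
    ⟨fun i => G (ext u) ((i : ℕ) - 7), ⟨fun j => ext u (j + -7), fun i => by
      rw [G_shift]
      rfl⟩⟩
  apply Nat.card_le_card_of_injective φ
  intro u v huv
  have h1 : ∀ i : Fin (n + 7), G (ext u) ((i : ℕ) - 7) = G (ext v) ((i : ℕ) - 7) := by
    intro i
    have := congrArg (fun g : Img (n + 7) => g.1 i) huv
    exact this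
  have hneg : ∀ u : Fin n → Bool, ∀ i : ℤ, i < 0 → ext u i = false := by
    intro u i hi
    exact dif_neg (by omega)
  have hpos : ∀ u : Fin n → Bool, ∀ i : ℤ, (n : ℤ) ≤ i → ext u i = false := by
    intro u i hi
    exact dif_neg (by omega)
  have h2 : ext u = ext v := by
    apply pre_injective n (ext u) (ext v) (hneg u) (hneg v) (hpos u) (hpos v)
    intro i hi1 hi2
    have := h1 ⟨(i + 7).toNat, by omega⟩
    have e : (((i + 7).toNat : ℕ) : ℤ) - 7 = i := by omega
    simp only [e] at this
    exact this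
  funext i
  have h3 := congrFun h2 (i : ℕ)
  have hi : (0 : ℤ) ≤ ((i : ℕ) : ℤ) ∧ ((i : ℕ) : ℤ) < n := by
    have := i.2
    omega
  simp only [ext, dif_pos hi] at h3
  simpa using h3

theorem card_upper (m : ℕ) (g₀ : Fin m → Bool) (h : g₀ ∉ Img m) (k : ℕ) :
    Nat.card (Img (k * m)) ≤ (2 ^ m - 1) ^ k := by
  classical
  have hc : Nat.card (Fin k → {g : Fin m → Bool // g ≠ g₀}) = (2 ^ m - 1) ^ k := by
    simp
  rw [← hc]
  have hlt : ∀ (j : Fin k) (i : Fin m), (j : ℕ) * m + i < k * m := by
    intro j i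
    have h1 := j.2
    have h2 := i.2
    calc (j : ℕ) * m + i < (j : ℕ) * m + m := by omega
      _ = ((j : ℕ) + 1) * m := by ring
      _ ≤ k * m := Nat.mul_le_mul_right _ h1
  let φ : Img (k * m) → (Fin k → {g : Fin m → Bool // g ≠ g₀}) := fun g j =>
    ⟨fun i => g.1 ⟨(j : ℕ) * m + i, hlt j i⟩, by
      intro e
      apply h
      obtain ⟨x, hx⟩ := g.2
      refine ⟨fun t => x (t + ((j : ℕ) * m : ℕ)), fun i => ?_⟩
      rw [G_shift, ← e]
      refine Eq.trans ?_ (hx ⟨(j : ℕ) * m + i, hlt j i⟩)
      congr 1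
      push_cast
      ring⟩
  apply Nat.card_le_card_of_injective φ
  intro g g' e
  apply Subtype.ext
  funext t
  have ht := t.2
  have hm : 0 < m := by
    rcases Nat.eq_zero_or_pos m with h0 | h0
    · exfalso
      have h9 : k * m = 0 := by rw [h0, mul_zero]
      omega
    · exact h0
  have hj : (t : ℕ) / m < k := (Nat.div_lt_iff_lt_mul hm).mpr ht
  have h1 := congrFun e ⟨(t : ℕ) / m, hj⟩
  have h2 := congrFun (congrArg Subtype.val h1) ⟨(t : ℕ) % m, Nat.mod_lt _ hm⟩
  simp only [φ] at h2
  have h3 : (⟨(t : ℕ) / m * m + (t : ℕ) % m, hlt ⟨(t : ℕ) / m, hj⟩ ⟨(t : ℕ) % m, Nat.mod_lt _ hm⟩⟩ : Fin (k * m)) = t := by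
    apply Fin.ext
    simp only
    exact Nat.div_add_mod' (t : ℕ) m
  rw [h3] at h2
  exact h2

/-- Every finite word is in the image. -/
theorem img_univ (m : ℕ) (g : Fin m → Bool) : g ∈ Img m := by
  by_contra h
  have hm : 1 ≤ m := by
    rcases Nat.eq_zero_or_pos m with h0 | h0
    · exfalso
      apply h
      subst h0
      exact ⟨fun _ => false, fun i => i.elim0⟩
    · exact h0
  have ht : 1 ≤ 2 ^ m - 1 := by
    have : 2 ^ 1 ≤ 2 ^ m := Nat.pow_le_pow_right (by norm_num) hm
    omega
  obtain ⟨t, htt⟩ : ∃ t, t = 2 ^ m - 1 := ⟨_, rfl⟩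
  rw [← htt] at ht
  have h2m : 2 ^ m = t + 1 := by
    have : 1 ≤ 2 ^ m := Nat.one_le_two_pow
    omega
  have hk : 7 ≤ 128 * t * m := by nlinarith
  have h1 := card_lower (128 * t * m - 7)
  rw [Nat.sub_add_cancel hk] at h1
  have h3 := h1.trans (card_upper m g h (128 * t))
  rw [← htt] at h3
  have h4 : (t + 1) ^ (128 * t) ≤ 128 * t ^ (128 * t) := by
    rw [← h2m, ← pow_mul]
    calc 2 ^ (m * (128 * t)) = 2 ^ 7 * 2 ^ (128 * t * m - 7) := by
          rw [← pow_add]
          congr 1
          have : m * (128 * t) = 128 * t * m := by ring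
          omega
      _ ≤ 128 * t ^ (128 * t) := by
          have : (2 : ℕ) ^ 7 = 128 := by norm_num
          rw [this]
          exact Nat.mul_le_mul_left _ h3
  have htR : (0 : ℝ) < t := by exact_mod_cast ht
  have h5 : ((t : ℝ) + 1) ^ (128 * t) ≤ 128 * (t : ℝ) ^ (128 * t) := by exact_mod_cast h4
  have h6 : (129 : ℝ) ≤ (1 + 1 / (t : ℝ)) ^ (128 * t) := by
    have hb := one_add_mul_le_pow (a := 1 / (t : ℝ)) (by have := one_div_pos.mpr htR; linarith) (128 * t)
    have e : 1 + ((128 * t : ℕ) : ℝ) * (1 / (t : ℝ)) = 129 := by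
      push_cast
      field_simp
      norm_num
    rw [e] at hb
    exact hb
  have h7 : ((t : ℝ) + 1) ^ (128 * t) = (1 + 1 / (t : ℝ)) ^ (128 * t) * (t : ℝ) ^ (128 * t) := by
    rw [← mul_pow]
    congr 1
    field_simp
  rw [h7] at h5
  have h8 : 0 < (t : ℝ) ^ (128 * t) := pow_pos htR _
  nlinarith

theorem continuous_G : Continuous G := by
  apply continuous_pi
  intro i
  have : (fun x : ℤ → Bool => G x i) =
      (fun v : Fin 8 → Bool => rule.testBit (2 * (64 * (v 0).toNat + 32 * (v 1).toNat + 16 * (v 2).toNat +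
        8 * (v 3).toNat + 4 * (v 4).toNat + 2 * (v 5).toNat + (v 6).toNat) + (v 7).toNat)) ∘
      (fun (x : ℤ → Bool) (j : Fin 8) => x (i + ((j : ℕ) : ℤ))) := by
    funext x
    simp [G, st]
  rw [this]
  exact (continuous_of_discreteTopology).comp (continuous_pi fun j => continuous_apply _)

theorem surjective_G : Function.Surjective G := by
  intro y
  let K : ℕ → Set (ℤ → Bool) := fun n => {x | ∀ i : ℤ, -(n : ℤ) ≤ i → i < n → G x i = y i}
  have hclosed : ∀ n, IsClosed (K n) := by
    intro n
    have : K n = ⋂ i : ℤ, {x | -(n : ℤ) ≤ i → i < n → G x i = y i} := by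
      ext x
      simp [K]
    rw [this]
    apply isClosed_iInter
    intro i
    by_cases h1 : -(n : ℤ) ≤ i ∧ i < n
    · have e : {x : ℤ → Bool | -(n : ℤ) ≤ i → i < n → G x i = y i} = (fun x => G x i) ⁻¹' {y i} := by
        ext x
        simp [h1.1, h1.2]
      rw [e]
      exact (isClosed_discrete _).preimage ((continuous_apply i).comp continuous_G)
    · have e : {x : ℤ → Bool | -(n : ℤ) ≤ i → i < n → G x i = y i} = Set.univ := by
        ext x
        simp only [Set.mem_ofPred_eq, Set.mem_univ, iff_true]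
        intro h2 h3
        exact absurd ⟨h2, h3⟩ h1
      rw [e]
      exact isClosed_univ
  have hne : ∀ n, (K n).Nonempty := by
    intro n
    obtain ⟨x, hx⟩ := img_univ (2 * n) (fun i => y ((i : ℕ) - n))
    refine ⟨fun j => x (j + n), ?_⟩
    intro i h1 h2
    rw [G_shift]
    have := hx ⟨(i + n).toNat, by omega⟩
    have e : (((i + n).toNat : ℕ) : ℤ) = i + n := by omega
    simp only [e] at this
    rw [this]
    congr 1
    ring
  have hmono : ∀ n, K (n + 1) ⊆ K n := by
    intro n x hx i h1 h2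
    exact hx i (by push_cast; omega) (by push_cast; omega)
  obtain ⟨x, hx⟩ := IsCompact.nonempty_iInter_of_sequence_nonempty_isCompact_isClosed K hmono hne
    (hclosed 0).isCompact hclosed
  refine ⟨x, ?_⟩
  funext i
  have := Set.mem_iInter.mp hx (i.natAbs + 1)
  exact this i (by omega) (by omega)

end Pool.Agent.K4H92.CA
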